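import Pool.Agent.Helper95.HS.Stmts
import Pool.Agent.Helper40.PN.INLJ

/-!
# The sum rule with the sharp constant (row SSR)
-/

set_option autoImplicit false

namespace Pool.Agent.Helper81.HS

open MeasureTheory Filter Pool.Agent.Helper95 Pool.Agent.Helper95.PW Pool.Agent.Helper95.HS

/-- the arithmetic for one direction -/
theorem ssr_one {p a f c b N D ρ P0 : ℝ} (hcs : (c - 2 * p) ^ 2 ≤ (f + a) * b)
    (hf : |f| ≤ D * ρ) (hc : |c| ≤ D * ρ) (ha : a ≤ N) (hb : 0 ≤ b)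
    (hp : 0 ≤ p) (hP : p ≤ P0) (hD : 0 ≤ D) (hρ : 0 ≤ ρ) :
    4 * p ^ 2 ≤ (N + D * ρ) * b + 4 * (D * ρ) * P0 := by
  have e1 : (f + a) * b ≤ (N + D * ρ) * b :=
    mul_le_mul_of_nonneg_right (by linarith [(abs_le.1 hf).2]) hb
  have hDρ : 0 ≤ D * ρ := mul_nonneg hD hρ
  have e2 : c * p ≤ D * ρ * P0 := by
    calc c * p ≤ |c| * p := mul_le_mul_of_nonneg_right (le_abs_self c) hp
      _ ≤ D * ρ * p := mul_le_mul_of_nonneg_right hc hp
      _ ≤ D * ρ * P0 := mul_le_mul_of_nonneg_left hP hDρ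
  nlinarith [e1, e2, sq_nonneg c, hcs]

/-- the arithmetic for the sum -/
theorem ssr_sum {p b : Fin 3 → ℝ} {N D ρ P0 S K C B' B1 Bm M0 S0 : ℝ}
    (h : ∀ m, 4 * p m ^ 2 ≤ (N + D * ρ) * b m + 4 * (D * ρ) * P0)
    (hb : ∑ m, b m ≤ 3 * (D * ρ) + C * K ^ 2 * S + B' / 2)
    (hN : 0 ≤ N) (hNM : N ≤ M0) (hD : 0 ≤ D) (hρ : 0 ≤ ρ) (hρ1 : ρ ≤ 1)
    (hS0 : S ≤ S0) (hC : 0 ≤ C) (hB1 : B' ≤ B1) (hBm : B' ≤ Bm) :
    (∑ m, p m) ^ 2 ≤ 3 / 4 * N * (B1 / 2 + C * K ^ 2 * S) +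
      (3 / 4 * D * (3 * M0 + 3 * D + C * K ^ 2 * S0 + Bm / 2 + 12 * P0) + 1) * ρ := by
  have hDρ : 0 ≤ D * ρ := mul_nonneg hD hρ
  have hDρ1 : D * ρ ≤ D := by nlinarith
  have hCK : 0 ≤ C * K ^ 2 := by positivity
  have e0 : (∑ m, p m) ^ 2 ≤ 3 * ∑ m, p m ^ 2 := by
    rw [Fin.sum_univ_three, Fin.sum_univ_three]
    nlinarith [sq_nonneg (p 0 - p 1), sq_nonneg (p 0 - p 2), sq_nonneg (p 1 - p 2)]
  have e1 : 4 * ∑ m, p m ^ 2 ≤ (N + D * ρ) * ∑ m, b m + 12 * (D * ρ) * P0 := by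
    have k0 := h 0
    have k1 := h 1
    have k2 := h 2
    rw [Fin.sum_univ_three, Fin.sum_univ_three]
    nlinarith [k0, k1, k2]
  have e2 : (N + D * ρ) * ∑ m, b m ≤ (N + D * ρ) * (3 * (D * ρ) + C * K ^ 2 * S + B' / 2) :=
    mul_le_mul_of_nonneg_left hb (by linarith)
  have e3 : N * (3 * (D * ρ) + C * K ^ 2 * S + B' / 2) ≤
      N * (B1 / 2 + C * K ^ 2 * S) + 3 * M0 * (D * ρ) := by
    have k1 : N * (B' / 2) ≤ N * (B1 / 2) := mul_le_mul_of_nonneg_left (by linarith) hN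
    have k2 : N * (D * ρ) ≤ M0 * (D * ρ) := mul_le_mul_of_nonneg_right hNM hDρ
    nlinarith [k1, k2]
  have e4 : D * ρ * (3 * (D * ρ) + C * K ^ 2 * S + B' / 2) ≤
      D * ρ * (3 * D + C * K ^ 2 * S0 + Bm / 2) := by
    apply mul_le_mul_of_nonneg_left _ hDρ
    have k1 : C * K ^ 2 * S ≤ C * K ^ 2 * S0 := mul_le_mul_of_nonneg_left hS0 hCK
    linarith
  have e5 : (3 / 4 * D * (3 * M0 + 3 * D + C * K ^ 2 * S0 + Bm / 2 + 12 * P0) + 1) * ρ =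
      3 / 4 * (3 * M0 * (D * ρ) + D * ρ * (3 * D + C * K ^ 2 * S0 + Bm / 2) +
        12 * (D * ρ) * P0) + ρ := by ring
  rw [e5]
  have e6 : (N + D * ρ) * (3 * (D * ρ) + C * K ^ 2 * S + B' / 2) =
      N * (3 * (D * ρ) + C * K ^ 2 * S + B' / 2) +
        D * ρ * (3 * (D * ρ) + C * K ^ 2 * S + B' / 2) := by ring
  have e7 : 3 / 4 * N * (B1 / 2 + C * K ^ 2 * S) = 3 / 4 * (N * (B1 / 2 + C * K ^ 2 * S)) := by
    ring
  rw [e7]
  linarith [e0, e1, e2, e3, e4, e6]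

theorem SSR (h1 : ST_CSQM) (h2 : ST_STB) (h3 : ST_AIDM) (h4 : ST_CIDM) (h5 : ST_BINJ)
    (h7 : ST_ERR) (hI : ST_INTM) (h6 : ST_MORM) : ST_SSR := by
  obtain ⟨C, hC, hB⟩ := h5
  refine ⟨C, hC, ?_⟩
  intro n NN X Z E g K R M S hLow hZ hK hg hR hSc hoff hin
  obtain ⟨z, hz⟩ : ∃ z : ℝ, z = ∑ j, Z j := ⟨_, rfl⟩
  have hz0 : 0 ≤ z := by rw [hz]; exact Finset.sum_nonneg fun j _ => hZ j
  choose Cm hCm hE using fun m => h7 n (g m) (hg m).sm (hg m).cs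
  obtain ⟨C1, hC1, hCle⟩ : ∃ C1 : ℝ, 0 < C1 ∧ ∀ m, Cm m ≤ C1 := by
    refine ⟨Cm 0 + Cm 1 + Cm 2, by linarith [hCm 0, hCm 1, hCm 2], fun m => ?_⟩
    fin_cases m <;> simp <;> linarith [hCm 0, hCm 1, hCm 2]
  obtain ⟨M0, hM0, hMM⟩ : ∃ M0 : ℝ, 0 ≤ M0 ∧ M ≤ M0 := ⟨|M|, abs_nonneg _, le_abs_self _⟩
  obtain ⟨D, hDdef⟩ : ∃ D, D = Real.sqrt (C1 * (2 * M0 + 2)) := ⟨_, rfl⟩
  have hD : 0 ≤ D := by rw [hDdef]; exact Real.sqrt_nonneg _
  obtain ⟨Bm, hBmdef⟩ : ∃ Bm : ℝ, Bm = z * (4 * z * M0 + 8 * Real.sqrt (n * M0)) := ⟨_, rfl⟩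
  have hBm : 0 ≤ Bm := by rw [hBmdef]; positivity
  have hn0 : (0:ℝ) ≤ n := Nat.cast_nonneg _
  refine ⟨3 / 4 * D * (3 * M0 + 3 * D +
    C * K ^ 2 * ((M0 + M0 + M0) / R ^ 2 + 2 * n / R ^ 4) + Bm / 2 +
      12 * (C1 * (M0 + 2))) + 1, by positivity, ?_⟩
  intro u hu hA hsq hkin hpair hone hdd hres B1 s0 N hB1 hs0 hN0 hNM hmor hgr
  have hh := INLJ_h2 hI X Z E hu
  have ρ0 : 0 ≤ Real.sqrt (resM X Z E u) := Real.sqrt_nonneg _
  have ρ1 : Real.sqrt (resM X Z E u) ≤ 1 := Real.sqrt_le_one.2 hres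
  have hcau : ∀ f : Wf n, Sm f → PW.sq f ≤ C1 * (2 * M0 + 2) →
      |∑ s, ∫ x, f s x * (hmM X Z (u s) x - E * u s x)| ≤ D * Real.sqrt (resM X Z E u) := by
    intro f hf hs
    refine (INL_cauchy hf hh).trans ?_
    rw [hDdef]
    exact mul_le_mul (Real.sqrt_le_sqrt hs) le_rfl (Real.sqrt_nonneg _) (Real.sqrt_nonneg _)
  have sq0 : ∀ v : Wf n, 0 ≤ PW.sq v := fun v =>
    Finset.sum_nonneg fun s _ => integral_nonneg fun x => sq_nonneg _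
  have kin0 : 0 ≤ kin u := Finset.sum_nonneg fun k _ => Finset.sum_nonneg fun i _ => sq0 _
  have dd0 : 0 ≤ dd u := Finset.sum_nonneg fun k _ => Finset.sum_nonneg fun i _ =>
    Finset.sum_nonneg fun l _ => Finset.sum_nonneg fun m _ => sq0 _
  have rep0 : ∀ x : Cf n, 0 ≤ rep x := fun x => Finset.sum_nonneg fun k _ =>
    Finset.sum_nonneg fun l _ => by
      split_ifs
      · exact div_nonneg zero_le_one (INL_nr0 _)
      · exact le_rfl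
  have pair0 : 0 ≤ pair u := Finset.sum_nonneg fun s _ => integral_nonneg fun x =>
    mul_nonneg (rep0 x) (sq_nonneg _)
  have on0 : 0 ≤ one (pot X Z) u := INL_one0 (fun y => INLJ_pot0 X Z hZ y) u
  have ν0 : 0 ≤ one (ind S) u := INL_one0 (fun y => ((INLJ_ind S hSc).2 y).1) u
  have ν1 : one (ind S) u ≤ 2 * n := by
    refine (INLJ_one1 S hSc hu).trans ?_
    nlinarith
  have su0 := sq0 u
  have SF : ∀ m, Sm (fun s => Fg (g m) (u s)) := fun m => (h2 n (g m) u (hg m).sm hu).1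
  have SP : ∀ m, Sm (fun s => Pg (g m) (u s)) := fun m => (h2 n (g m) u (hg m).sm hu).2.1
  have AF : ∀ m, Anti (fun s => Fg (g m) (u s)) := fun m =>
    ((h2 n (g m) u (hg m).sm hu).2.2 hA).1
  have AP : ∀ m, Anti (fun s => Pg (g m) (u s)) := fun m =>
    ((h2 n (g m) u (hg m).sm hu).2.2 hA).2
  have SFF : ∀ m, Sm (fun s => Fg (g m) (Fg (g m) (u s))) := fun m =>
    (h2 n (g m) (fun s => Fg (g m) (u s)) (hg m).sm (SF m)).1
  have SFP : ∀ m, Sm (fun s => Fg (g m) (Pg (g m) (u s))) := fun m =>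
    (h2 n (g m) (fun s => Pg (g m) (u s)) (hg m).sm (SP m)).1
  have SPP : ∀ m, Sm (fun s => Pg (g m) (Pg (g m) (u s))) := fun m =>
    (h2 n (g m) (fun s => Pg (g m) (u s)) (hg m).sm (SP m)).2.1
  have bd : ∀ (m : Fin 3) (y : ℝ), 0 ≤ y → y ≤ 2 * M0 + 2 → Cm m * y ≤ C1 * (2 * M0 + 2) :=
    fun m y hy0 hy => mul_le_mul (hCle m) hy hy0 hC1.le
  have a1 : ∀ m, |∑ s, ∫ x, Fg (g m) (Fg (g m) (u s)) x * (hmM X Z (u s) x - E * u s x)| ≤
      D * Real.sqrt (resM X Z E u) := fun m =>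
    hcau _ (SFF m) ((hE m u hu).1.trans (bd m _ su0 (by linarith)))
  have a2 : ∀ m, |∑ s, ∫ x, Fg (g m) (Pg (g m) (u s)) x * (hmM X Z (u s) x - E * u s x)| ≤
      D * Real.sqrt (resM X Z E u) := fun m =>
    hcau _ (SFP m) ((hE m u hu).2.2.1.trans (bd m _ (by linarith) (by linarith)))
  have a3 : ∀ m, |∑ s, ∫ x, Pg (g m) (Pg (g m) (u s)) x * (hmM X Z (u s) x - E * u s x)| ≤
      D * Real.sqrt (resM X Z E u) := fun m =>
    hcau _ (SPP m) ((hE m u hu).2.2.2.trans (bd m _ (by linarith) (by linarith)))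
  have hP0 : ∀ m, PW.sq (fun s => Pg (g m) (u s)) ≤ C1 * (M0 + 2) := fun m =>
    (hE m u hu).2.1.trans (mul_le_mul (hCle m) (by linarith) (by linarith) hC1.le)
  have b0 : ∀ m, 0 ≤ QM X Z (fun s => Pg (g m) (u s)) -
      E * PW.sq (fun s => Pg (g m) (u s)) :=
    fun m => sub_nonneg.2 (hLow _ (SP m) (AP m))
  obtain ⟨B', hB'def⟩ : ∃ B' : ℝ, B' = min B1 Bm := ⟨_, rfl⟩
  have hB'1 : B' ≤ B1 := by rw [hB'def]; exact min_le_left _ _
  have hB'm : B' ≤ Bm := by rw [hB'def]; exact min_le_right _ _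
  have hone' : ∀ (j : Fin NN) (s : ℝ), 0 < s → one (fun y => mor s (y - X j)) u ≤
      4 * z * M0 + 8 * Real.sqrt (n * M0) := by
    intro j s hs
    have k1 := h6 n NN X Z E s (X j) u hZ hs hu
    rw [← hz] at k1
    have k2 : Real.sqrt (n * kin u * resM X Z E u) ≤ Real.sqrt (n * M0) := by
      have hkk : kin u ≤ M0 := hkin.trans hMM
      have hnk : n * kin u ≤ n * M0 := mul_le_mul_of_nonneg_left hkk hn0
      have hnk0 : 0 ≤ n * kin u := mul_nonneg hn0 kin0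
      apply Real.sqrt_le_sqrt
      calc n * kin u * resM X Z E u ≤ n * kin u * 1 := mul_le_mul_of_nonneg_left hres hnk0
        _ ≤ n * M0 := by rw [mul_one]; exact hnk
    have k3 : 4 * z * kin u ≤ 4 * z * M0 :=
      mul_le_mul_of_nonneg_left (hkin.trans hMM) (by positivity)
    linarith
  have hmor' : ∀ s : ℝ, 0 < s → s ≤ s0 →
      ∑ j, Z j * one (fun y => mor s (y - X j)) u ≤ B' := by
    intro s hs hs'
    rw [hB'def]
    refine le_min (hmor s hs hs') ?_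
    rw [hBmdef, hz, Finset.sum_mul, ← hz]
    exact Finset.sum_le_sum fun j _ => mul_le_mul_of_nonneg_left (hone' j s hs) (hZ j)
  have hbin := hB n NN X Z E g K R B' s0 S u hZ hg hR hs0 hSc hoff hin hu hmor'
  have herr : -(∑ m, ∑ s, ∫ x, Pg (g m) (Pg (g m) (u s)) x * (hmM X Z (u s) x - E * u s x)) ≤
      3 * (D * Real.sqrt (resM X Z E u)) := by
    rw [← Finset.sum_neg_distrib]
    calc ∑ m, -(∑ s, ∫ x, Pg (g m) (Pg (g m) (u s)) x * (hmM X Z (u s) x - E * u s x)) ≤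
        ∑ _m : Fin 3, D * Real.sqrt (resM X Z E u) := Finset.sum_le_sum fun m _ => by
          have := (abs_le.1 (a3 m)).1
          linarith
      _ = _ := by simp
  have hS1 : (kin u + pair u + one (pot X Z) u) / R ^ 2 + one (ind S) u / R ^ 4 ≤
      (M0 + M0 + M0) / R ^ 2 + 2 * n / R ^ 4 := by
    have k1 := hkin.trans hMM
    have k2 := hpair.trans hMM
    have k3 := hone.trans hMM
    gcongr
  have hdir : ∀ m, 4 * PW.sq (fun s => Pg (g m) (u s)) ^ 2 ≤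
      (N + D * Real.sqrt (resM X Z E u)) * (QM X Z (fun s => Pg (g m) (u s)) -
        E * PW.sq (fun s => Pg (g m) (u s))) +
      4 * (D * Real.sqrt (resM X Z E u)) * (C1 * (M0 + 2)) := by
    intro m
    have hcs := h1 n NN X Z E (fun s => Fg (g m) (u s)) (fun s => Pg (g m) (u s)) hLow (SF m)
      (AF m) (SP m) (AP m)
    rw [h4 n NN X Z E (g m) u (hg m).sm hu, h3 n NN X Z E (g m) u (hg m).sm hu] at hcs
    exact ssr_one hcs (a1 m) (a2 m) (hgr m) (b0 m) (sq0 _) (hP0 m) hD ρ0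
  exact ssr_sum hdir (by linarith [hbin, herr]) hN0 (hNM.trans hMM) hD ρ0 ρ1 hS1 hC.le hB'1
    hB'm

end Pool.Agent.Helper81.HS
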